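import Pool.Agent.P.MP_a2f83a_an.SdLimit

set_option autoImplicit false

namespace Pool.Agent.Results.MP_a2f83a_an.DenseOrders

open Metric InnerProductSpace

theorem result (n : ℕ) (hn : 3 ≤ n) (v : EuclideanSpace ℝ (Fin n) → ℝ)
    (hv : HarmonicOnNhd v (ball 0 1)) (ha : ∃ a, ‖a‖ = 1 / 2 ∧ 0 < v a)
    (hb : ∃ b, ‖b‖ = 1 / 2 ∧ v b < 0) (M : ℕ) (ε : ℝ) (hε : 0 < ε) :
    ∃ h : EuclideanSpace ℝ (Fin n) → ℝ, HarmonicOnNhd h (ball 0 1) ∧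
      (∀ k ≤ M, ∀ x ∈ ball (0 : EuclideanSpace ℝ (Fin n)) 1,
        ‖iteratedFDeriv ℝ k h x‖ ≤ ε) ∧
      ∀ N : ℕ, ∃ u : EuclideanSpace ℝ (Fin n) → ℝ, HarmonicOnNhd u (ball 0 1) ∧
        (∀ k < N, iteratedFDeriv ℝ k u 0 = 0) ∧
        ∀ x, ‖x‖ = 1 / 2 → SignType.sign (u x) = SignType.sign (v x + h x) := by
  obtain ⟨m, rfl⟩ : ∃ m, n = m + 2 := ⟨n - 2, by omega⟩
  obtain ⟨h, -, h1, h2, h3⟩ :=
    Pool.Agent.P.MP_a2f83a_an.Sd.dense_orders (m := m + 1) (by omega) M hv ⟨ha, hb⟩ hε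
  exact ⟨h, h1, fun k hk x _ => h2 k hk x, h3⟩

end Pool.Agent.Results.MP_a2f83a_an.DenseOrders
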