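import Pool.Agent.P.MP_a2f83a_an.SdSphere

set_option autoImplicit false

namespace Pool.Agent.Results.MP_a2f83a_an.FixedSphere

open Metric InnerProductSpace

theorem result (n : ℕ) (hn : 3 ≤ n) (ε : ENNReal) (hε : 0 < ε) :
    ∃ Z : Set (EuclideanSpace ℝ (Fin n)),
      Nonempty (Z ≃ₜ sphere (0 : EuclideanSpace ℝ (Fin (n - 1))) 1) ∧
      MeasureTheory.Measure.hausdorffMeasure ((n : ℝ) - 2) Z < ε ∧ ediam Z < ε ∧
      ∀ N : ℕ, ∃ u : EuclideanSpace ℝ (Fin n) → ℝ, HarmonicOnNhd u (ball 0 1) ∧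
        (∃ x ∈ ball (0 : EuclideanSpace ℝ (Fin n)) 1, u x ≠ 0) ∧
        (∀ k < N, iteratedFDeriv ℝ k u 0 = 0) ∧
        {x : EuclideanSpace ℝ (Fin n) | ‖x‖ = 1 / 2 ∧ u x = 0} = Z := by
  obtain ⟨m, rfl⟩ : ∃ m, n = m + 2 := ⟨n - 2, by omega⟩
  rw [show (((m + 2 : ℕ) : ℝ) - 2) = m by push_cast; ring]
  exact Pool.Agent.P.MP_a2f83a_an.Sd.fixed_sphere (by omega) hε

/-- the instance for one order `N`: a small nodal set and a high order of vanishing -/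
theorem small_nodal (n : ℕ) (hn : 3 ≤ n) (N : ℕ) (ε : ENNReal) (hε : 0 < ε) :
    ∃ u : EuclideanSpace ℝ (Fin n) → ℝ,
      InnerProductSpace.HarmonicOnNhd u (Metric.ball 0 1) ∧
      (∃ x ∈ Metric.ball (0 : EuclideanSpace ℝ (Fin n)) 1, u x ≠ 0) ∧
      (∀ k < N, iteratedFDeriv ℝ k u 0 = 0) ∧
      MeasureTheory.Measure.hausdorffMeasure ((n : ℝ) - 2)
        {x : EuclideanSpace ℝ (Fin n) | ‖x‖ = 1 / 2 ∧ u x = 0} < ε := by
  obtain ⟨Z, -, h1, -, h2⟩ := result n hn ε hε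
  obtain ⟨u, a1, a2, a3, a4⟩ := h2 N
  exact ⟨u, a1, a2, a3, a4 ▸ h1⟩

end Pool.Agent.Results.MP_a2f83a_an.FixedSphere
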