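import Pool.Agent.P.MP_a2f83a_an.SdDual

set_option autoImplicit false

namespace Pool.Agent.Results.MP_a2f83a_an.SignDegree

open Metric InnerProductSpace

theorem result (n N : ℕ) (v : EuclideanSpace ℝ (Fin n) → ℝ) (hv : HarmonicOnNhd v (ball 0 1)) :
    (∃ u : EuclideanSpace ℝ (Fin n) → ℝ, HarmonicOnNhd u (ball 0 1) ∧
      (∀ k < N, iteratedFDeriv ℝ k u 0 = 0) ∧
      ∀ x, ‖x‖ = 1 / 2 → SignType.sign (u x) = SignType.sign (v x)) ↔
    ∀ p : MvPolynomial (Fin n) ℝ, p.totalDegree < N →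
      (∀ x : EuclideanSpace ℝ (Fin n), ‖x‖ = 1 / 2 →
        0 ≤ MvPolynomial.eval (fun i => x i) p * v x) →
      ∀ x : EuclideanSpace ℝ (Fin n), ‖x‖ = 1 / 2 →
        MvPolynomial.eval (fun i => x i) p * v x = 0 := by
  cases n with
  | zero =>
    have h0 : ∀ x : EuclideanSpace ℝ (Fin 0), ‖x‖ ≠ 1 / 2 := fun x => by
      rw [Subsingleton.elim x 0, norm_zero]; norm_num
    exact ⟨fun _ _ _ _ x hx => (h0 x hx).elim, fun _ =>
      ⟨fun _ => 0, harmonicOnNhd_const 0, fun k _ => by simp, fun x hx => (h0 x hx).elim⟩⟩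
  | succ m => exact Pool.Agent.P.MP_a2f83a_an.Sd.duality hv

end Pool.Agent.Results.MP_a2f83a_an.SignDegree
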